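import Pool.Agent.Y814.PSP.Avg

/-!
Project PSP (job 699): the relative counting lemma of Conlon, Fox and Zhao (`S_CNT` from `S_SLF`).
-/

set_option autoImplicit false

namespace Pool.Agent.Y814.PSP

open Finset
open Pool.Agent.H602R3.DHJ (av av_const av_mono av_nonneg av_add av_sub av_mul av_sum av_equiv
  av_prod av_comm)
open Pool.Agent.Y727.PSP

variable {J V : Type} [DecidableEq J] [Fintype J]

/-- product over the other indices -/
noncomputable def pr (j : J) (g : J → (J → V) → ℝ) : (J → V) → ℝ :=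
  fun x => ∏ i ∈ univ.erase j, g i x

theorem prod_split (j : J) (g : J → (J → V) → ℝ) (x : J → V) :
    ∏ i, g i x = g j x * pr j g x :=
  (Finset.mul_prod_erase univ (fun i => g i x) (mem_univ j)).symm

theorem pr_update (j : J) (g : J → (J → V) → ℝ) (k : (J → V) → ℝ) :
    pr j (Function.update g j k) = pr j g := by
  funext x
  unfold pr
  refine Finset.prod_congr rfl fun i hi => ?_
  rw [Function.update_of_ne (Finset.ne_of_mem_erase hi)]

theorem pr_nonneg {j : J} {g : J → (J → V) → ℝ} (h : ∀ i x, 0 ≤ g i x) (x : J → V) :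
    0 ≤ pr j g x := Finset.prod_nonneg fun i _ => h i x

theorem pr_mono {j : J} {g h : J → (J → V) → ℝ} (h0 : ∀ i x, 0 ≤ g i x) (h1 : ∀ i x, g i x ≤ h i x)
    (x : J → V) : pr j g x ≤ pr j h x := Finset.prod_le_prod (fun i _ => h0 i x) fun i _ => h1 i x

theorem pr_le_one {j : J} {g : J → (J → V) → ℝ} (h0 : ∀ i x, 0 ≤ g i x) (h1 : ∀ i x, g i x ≤ 1)
    (x : J → V) : pr j g x ≤ 1 := Finset.prod_le_one (fun i _ => h0 i x) fun i _ => h1 i x

variable [Fintype V]

theorem LF_mono {ν : J → (J → V) → ℝ} {η η' : ℝ} (h : LF ν η) (hle : η ≤ η') : LF ν η' :=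
  fun T hT => (h T hT).trans hle

theorem Cut_mono {j : J} {h : (J → V) → ℝ} {η η' : ℝ} (h1 : Cut j h η) (hle : η ≤ η') :
    Cut j h η' := fun u hu1 hu2 => (h1 u hu1 hu2).trans hle

theorem LF_update {ν : J → (J → V) → ℝ} {η : ℝ} (h : LF ν η) (j : J) :
    LF (Function.update ν j (fun _ => 1)) η := by
  intro T hT
  have h1 := h (T.filter (fun t => t.1 ≠ j)) (fun t ht => hT t (mem_filter.1 ht).1)
  have h2 : (fun y : J → V × V => ∏ t ∈ T, Function.update ν j (fun _ => 1) t.1 (sl t.2 y)) =
      fun y : J → V × V => ∏ t ∈ T.filter (fun t => t.1 ≠ j), ν t.1 (sl t.2 y) := by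
    funext y
    rw [Finset.prod_filter]
    refine Finset.prod_congr rfl fun t _ => ?_
    by_cases ht : t.1 = j
    · rw [if_neg (not_not.2 ht), ht, Function.update_self]
    · rw [if_pos ht, Function.update_of_ne ht]
  rw [h2]
  exact h1

/-- the system with bounded weights -/
theorem base {g h : J → (J → V) → ℝ} {η : ℝ} (hgI : ∀ j, Ind j (g j))
    (hhI : ∀ j, Ind j (h j)) (hg : ∀ j x, 0 ≤ g j x ∧ g j x ≤ 1)
    (hh : ∀ j x, 0 ≤ h j x ∧ h j x ≤ 1) (hC : ∀ j, Cut j (fun x => g j x - h j x) η) :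
    |av (fun x : J → V => ∏ j, g j x) - av (fun x : J → V => ∏ j, h j x)| ≤
      Fintype.card J * η := by
  have key : ∀ A : Finset J, |av (fun x : J → V => ∏ j, g j x) -
      av (fun x : J → V => ∏ j, (if j ∈ A then h j else g j) x)| ≤ A.card * η := by
    intro A
    induction A using Finset.induction_on with
    | empty => simp
    | insert j A hj ih =>
      have h1 : av (fun x : J → V => ∏ i, (if i ∈ A then h i else g i) x) -
          av (fun x : J → V => ∏ i, (if i ∈ insert j A then h i else g i) x) =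
          av (fun x => (g j x - h j x) * ∏ i ∈ univ.erase j, (if i ∈ A then h i else g i) x) := by
        rw [← av_sub]
        congr 1
        funext x
        rw [prod_split j (fun i => if i ∈ A then h i else g i),
          prod_split j (fun i => if i ∈ insert j A then h i else g i)]
        have h2 : pr j (fun i => if i ∈ insert j A then h i else g i) x =
            pr j (fun i => if i ∈ A then h i else g i) x := by
          unfold pr
          refine Finset.prod_congr rfl fun i hi => ?_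
          have h3 := Finset.ne_of_mem_erase hi
          simp [h3]
        rw [h2]
        simp only [hj, if_false, mem_insert_self, if_true]
        unfold pr
        ring
      have h4 := hC j (fun i => if i ∈ A then h i else g i) (fun i => by
        by_cases hi : i ∈ A
        · simp only [hi, if_true]; exact hhI i
        · simp only [hi, if_false]; exact hgI i) (fun i x => by
        by_cases hi : i ∈ A
        · simp only [hi, if_true]
          rw [abs_of_nonneg (hh i x).1]; exact (hh i x).2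
        · simp only [hi, if_false]
          rw [abs_of_nonneg (hg i x).1]; exact (hg i x).2)
      rw [← h1] at h4
      have h5 := abs_add_le (av (fun x : J → V => ∏ j, g j x) -
        av (fun x : J → V => ∏ i, (if i ∈ A then h i else g i) x))
        (av (fun x : J → V => ∏ i, (if i ∈ A then h i else g i) x) -
          av (fun x : J → V => ∏ i, (if i ∈ insert j A then h i else g i) x))
      rw [sub_add_sub_cancel] at h5
      rw [Finset.card_insert_of_notMem hj]
      push_cast
      linarith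
  have h1 := key univ
  simp only [mem_univ, if_true] at h1
  exact h1

variable [Nonempty V]

theorem LF_one {ν : J → (J → V) → ℝ} {η : ℝ} (h : LF ν η) (j : J) : |av (ν j) - 1| ≤ η := by
  have h1 := h {(j, ∅)} (by simp)
  simp only [prod_singleton] at h1
  rwa [av_sl_empty] at h1

theorem LF_pr {ν : J → (J → V) → ℝ} {η : ℝ} (h : LF ν η) (j : J) :
    |av (E j (pr j ν)) - 1| ≤ η := by
  have h1 := h ((univ.erase j).image (fun i => (i, (∅ : Finset J)))) (by
    intro t ht
    rw [mem_image] at ht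
    obtain ⟨i, _, rfl⟩ := ht
    simp)
  rw [av_single_E, ← av_sl_empty (J := J)]
  refine le_trans (le_of_eq ?_) h1
  congr 3
  funext y
  rw [Finset.prod_image (fun a _ b _ hab => (Prod.mk.inj hab).1)]
  rfl

theorem LF_pr2 {ν : J → (J → V) → ℝ} {η : ℝ} (h : LF ν η) (j : J) :
    |av (fun x => E j (pr j ν) x ^ 2) - 1| ≤ η := by
  have h1 := h ((univ.erase j).image (fun i => (i, (∅ : Finset J))) ∪
      (univ.erase j).image (fun i => (i, ({j} : Finset J)))) (by
    intro t ht
    rw [mem_union, mem_image, mem_image] at ht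
    rcases ht with ⟨i, _, rfl⟩ | ⟨i, hi, rfl⟩
    · simp
    · simpa using Finset.ne_of_mem_erase hi)
  have h2 := av_double j (k := fun _ => 1) (pr j ν) (pr j ν) (fun _ _ => rfl)
  have h3 : (fun x : J → V => E j (pr j ν) x ^ 2) =
      fun x => 1 * (E j (pr j ν) x * E j (pr j ν) x) := by
    funext x; ring
  rw [h3, ← h2]
  refine le_trans (le_of_eq ?_) h1
  congr 3
  funext y
  rw [Finset.prod_union, Finset.prod_image (fun a _ b _ hab => (Prod.mk.inj hab).1),
    Finset.prod_image (fun a _ b _ hab => (Prod.mk.inj hab).1), one_mul]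
  · rfl
  · rw [Finset.disjoint_left]
    intro t ht ht'
    rw [mem_image] at ht ht'
    obtain ⟨i, _, rfl⟩ := ht
    obtain ⟨i', _, h4⟩ := ht'
    have h5 := (Prod.mk.inj h4).2
    exact Finset.singleton_ne_empty j h5

theorem slf_use {ν : J → (J → V) → ℝ} {ε : ℝ}
    (hS : ∀ (j : J) (g : Bool → J → (J → V) → ℝ) (b : Bool → J → Bool), (∀ c i, Ind i (g c i)) →
      (∀ c i x, |g c i x| ≤ if b c i = true then ν i x else 1) →
      |av (fun y : J → V × V => (ν j (sl ∅ y) - 1) *
        ∏ i ∈ univ.erase j, (g false i (sl ∅ y) * g true i (sl {j} y)))| ≤ ε)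
    (hν : ∀ j, Ind j (ν j)) (j : J) (a b : J → (J → V) → ℝ) (ba bb : Bool)
    (ha : ∀ i, Ind i (a i)) (hb : ∀ i, Ind i (b i))
    (ha1 : ∀ i x, |a i x| ≤ if ba = true then ν i x else 1)
    (hb1 : ∀ i x, |b i x| ≤ if bb = true then ν i x else 1) :
    |av (fun x => (ν j x - 1) * (E j (pr j a) x * E j (pr j b) x))| ≤ ε := by
  have h1 := hS j (fun c => if c = true then b else a) (fun c _ => if c = true then bb else ba)
    (fun c i => by cases c <;> simp [ha i, hb i])
    (fun c i x => by
      cases c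
      · simpa using ha1 i x
      · simpa using hb1 i x)
  have h2 := av_double j (k := fun x => ν j x - 1) (pr j a) (pr j b) (fun x v => by
    show ν j _ - 1 = ν j x - 1
    rw [hν j])
  rw [← h2]
  refine le_trans (le_of_eq ?_) h1
  congr 2
  funext y
  rw [Finset.prod_mul_distrib]
  simp [pr]

open scoped Classical in
/-- the counting lemma with at most `s` sparse indices -/
def CN (J : Type) [Fintype J] [DecidableEq J] (s : ℕ) : Prop := ∀ ε : ℝ, 0 < ε →
  ∃ η : ℝ, 0 < η ∧ ∀ (V : Type) [Fintype V] [Nonempty V] (ν g h : J → (J → V) → ℝ),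
    (∀ j, Ind j (ν j)) → (∀ j, Ind j (g j)) → (∀ j, Ind j (h j)) → LF ν η →
    (∀ j x, 0 ≤ g j x ∧ g j x ≤ ν j x) → (∀ j x, 0 ≤ h j x ∧ h j x ≤ 1) →
    (∀ j, Cut j (fun x => g j x - h j x) η) →
    (univ.filter (fun j => ν j ≠ fun _ => 1)).card ≤ s →
    |av (fun x : J → V => ∏ j, g j x) - av (fun x : J → V => ∏ j, h j x)| ≤ ε

theorem CN_zero (J : Type) [Fintype J] [DecidableEq J] : CN J 0 := by
  classical
  intro ε hε
  have hc : (0 : ℝ) < Fintype.card J + 1 := by positivity
  refine ⟨ε / (Fintype.card J + 1), div_pos hε hc, ?_⟩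
  intro V _ _ ν g h hν hg hh _ hg1 hh1 hC hs
  have hν1 : ∀ j, ν j = fun _ => 1 := by
    intro j
    by_contra hj
    have : j ∈ univ.filter (fun j => ν j ≠ fun _ => 1) := by simp [hj]
    rw [Nat.le_zero, Finset.card_eq_zero] at hs
    rw [hs] at this
    simp at this
  refine (base hg hh (fun j x => ⟨(hg1 j x).1, ?_⟩) hh1 hC).trans ?_
  · have := (hg1 j x).2
    rwa [hν1 j] at this
  · rw [mul_div_assoc', div_le_iff₀ hc]
    nlinarith

/-- the use of the induction hypothesis -/
theorem step_use {s : ℕ} {ε η : ℝ} {ν g h : J → (J → V) → ℝ} (j : J)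
    (hP : ∀ (ν g h : J → (J → V) → ℝ),
      (∀ j, Ind j (ν j)) → (∀ j, Ind j (g j)) → (∀ j, Ind j (h j)) → LF ν η →
      (∀ j x, 0 ≤ g j x ∧ g j x ≤ ν j x) → (∀ j x, 0 ≤ h j x ∧ h j x ≤ 1) →
      (∀ j, Cut j (fun x => g j x - h j x) η) →
      (∃ A : Finset J, A.card ≤ s ∧ ∀ j, j ∉ A → ν j = fun _ => 1) →
      |av (fun x : J → V => ∏ j, g j x) - av (fun x : J → V => ∏ j, h j x)| ≤ ε)
    (hη : 0 ≤ η) (hν : ∀ j, Ind j (ν j)) (hg : ∀ j, Ind j (g j)) (hh : ∀ j, Ind j (h j))
    (hLF : LF ν η) (hg1 : ∀ j x, 0 ≤ g j x ∧ g j x ≤ ν j x)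
    (hh1 : ∀ j x, 0 ≤ h j x ∧ h j x ≤ 1) (hC : ∀ j, Cut j (fun x => g j x - h j x) η)
    (hA : ∃ A : Finset J, A.card ≤ s ∧ ∀ i, i ∉ A → i ≠ j → ν i = fun _ => 1)
    (k : (J → V) → ℝ) (hk : Ind j k) (hk1 : ∀ x, 0 ≤ k x ∧ k x ≤ 1) :
    |av (fun x => k x * (E j (pr j g) x - E j (pr j h) x))| ≤ ε := by
  have h1 := hP (Function.update ν j (fun _ => 1)) (Function.update g j k)
    (Function.update h j k)
    (fun i => by
      by_cases hi : i = j
      · subst hi; rw [Function.update_self]; intro _ _; rfl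
      · rw [Function.update_of_ne hi]; exact hν i)
    (fun i => by
      by_cases hi : i = j
      · subst hi; rw [Function.update_self]; exact hk
      · rw [Function.update_of_ne hi]; exact hg i)
    (fun i => by
      by_cases hi : i = j
      · subst hi; rw [Function.update_self]; exact hk
      · rw [Function.update_of_ne hi]; exact hh i)
    (LF_update hLF j)
    (fun i x => by
      by_cases hi : i = j
      · subst hi; rw [Function.update_self, Function.update_self]; exact hk1 x
      · rw [Function.update_of_ne hi, Function.update_of_ne hi]; exact hg1 i x)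
    (fun i x => by
      by_cases hi : i = j
      · subst hi; rw [Function.update_self]; exact hk1 x
      · rw [Function.update_of_ne hi]; exact hh1 i x)
    (fun i => by
      by_cases hi : i = j
      · subst hi
        rw [Function.update_self, Function.update_self]
        intro u _ _
        simp only [sub_self, zero_mul]
        rw [av_const, abs_zero]
        exact hη
      · rw [Function.update_of_ne hi, Function.update_of_ne hi]; exact hC i)
    (by
      obtain ⟨A, hA1, hA2⟩ := hA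
      refine ⟨A, hA1, fun i hi => ?_⟩
      by_cases hij : i = j
      · subst hij; rw [Function.update_self]
      · rw [Function.update_of_ne hij]; exact hA2 i hi hij)
  have h2 : ∀ a : J → (J → V) → ℝ, av (fun x : J → V => ∏ i, Function.update a j k i x) =
      av (fun x => k x * E j (pr j a) x) := by
    intro a
    rw [← av_mul_E j _ hk]
    congr 1
    funext x
    rw [prod_split j, Function.update_self, pr_update]
  rw [h2, h2, ← av_sub] at h1
  refine le_trans (le_of_eq ?_) h1
  congr 2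
  funext x
  ring

/-- the main inequality -/
theorem main_ineq {s : ℕ} {ε₁ ε₂ η τ : ℝ} {ν g h : J → (J → V) → ℝ} (j : J)
    (hP : ∀ (ν g h : J → (J → V) → ℝ),
      (∀ j, Ind j (ν j)) → (∀ j, Ind j (g j)) → (∀ j, Ind j (h j)) → LF ν η →
      (∀ j x, 0 ≤ g j x ∧ g j x ≤ ν j x) → (∀ j x, 0 ≤ h j x ∧ h j x ≤ 1) →
      (∀ j, Cut j (fun x => g j x - h j x) η) →
      (∃ A : Finset J, A.card ≤ s ∧ ∀ j, j ∉ A → ν j = fun _ => 1) →
      |av (fun x : J → V => ∏ j, g j x) - av (fun x : J → V => ∏ j, h j x)| ≤ ε₁)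
    (hS : ∀ (j : J) (g : Bool → J → (J → V) → ℝ) (b : Bool → J → Bool), (∀ c i, Ind i (g c i)) →
      (∀ c i x, |g c i x| ≤ if b c i = true then ν i x else 1) →
      |av (fun y : J → V × V => (ν j (sl ∅ y) - 1) *
        ∏ i ∈ univ.erase j, (g false i (sl ∅ y) * g true i (sl {j} y)))| ≤ ε₂)
    (hη : 0 ≤ η) (hη1 : η ≤ 1) (hτ : 0 ≤ τ) (hτη : 3 * η ≤ τ ^ 2)
    (hν : ∀ j, Ind j (ν j)) (hg : ∀ j, Ind j (g j)) (hh : ∀ j, Ind j (h j))
    (hLF : LF ν η) (hg1 : ∀ j x, 0 ≤ g j x ∧ g j x ≤ ν j x)
    (hh1 : ∀ j x, 0 ≤ h j x ∧ h j x ≤ 1) (hC : ∀ j, Cut j (fun x => g j x - h j x) η)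
    (hA : ∃ A : Finset J, A.card ≤ s ∧ ∀ i, i ∉ A → i ≠ j → ν i = fun _ => 1) :
    ∃ r : ℝ, r ^ 2 ≤ 2 * (2 * ε₁ + τ ^ 2 + 2 * τ + 4 * ε₂) ∧
      |av (fun x : J → V => ∏ j, g j x) - av (fun x : J → V => ∏ j, h j x)| ≤ r + η := by
  set G := E j (pr j g) with hGdef
  set H := E j (pr j h) with hHdef
  set N := E j (pr j ν) with hNdef
  have hg0 : ∀ i x, 0 ≤ g i x := fun i x => (hg1 i x).1
  have hν0 : ∀ i x, 0 ≤ ν i x := fun i x => (hg0 i x).trans (hg1 i x).2
  have hh0 : ∀ i x, 0 ≤ h i x := fun i x => (hh1 i x).1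
  have hG0 : ∀ x, 0 ≤ G x := fun x => E_nonneg j (pr_nonneg hg0) x
  have hH0 : ∀ x, 0 ≤ H x := fun x => E_nonneg j (pr_nonneg hh0) x
  have hN0 : ∀ x, 0 ≤ N x := fun x => E_nonneg j (pr_nonneg hν0) x
  have hGN : ∀ x, G x ≤ N x := fun x => E_mono j (pr_mono hg0 fun i x => (hg1 i x).2) x
  have hH1 : ∀ x, H x ≤ 1 := fun x => E_le_one j (pr_le_one hh0 fun i x => (hh1 i x).2) x
  have hGI : Ind j G := Ind_E j _
  have hHI : Ind j H := Ind_E j _
  -- decomposition
  have d1 : av (fun x : J → V => ∏ i, g i x) = av (fun x => g j x * G x) := by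
    rw [← av_mul_E j _ (hg j)]
    congr 1
    funext x
    exact prod_split j g x
  have d2 : av (fun x : J → V => ∏ i, h i x) = av (fun x => h j x * H x) := by
    rw [← av_mul_E j _ (hh j)]
    congr 1
    funext x
    exact prod_split j h x
  have d3 : av (fun x : J → V => ∏ i, g i x) - av (fun x : J → V => ∏ i, h i x) =
      av (fun x => g j x * (G x - H x)) + av (fun x => (g j x - h j x) * H x) := by
    rw [d1, d2, ← av_sub, ← av_add]
    congr 1
    funext x
    ring
  have d4 : |av (fun x => (g j x - h j x) * H x)| ≤ η := by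
    rw [hHdef, ← av_mul_E j (k := fun x => g j x - h j x) _ (by
      intro x v
      show g j _ - h j _ = g j x - h j x
      rw [hg j, hh j])]
    exact hC j h hh (fun i x => by rw [abs_of_nonneg (hh0 i x)]; exact (hh1 i x).2)
  -- the first term
  have d5 : |av (fun x => g j x * (G x - H x))| ≤ av (fun x => ν j x * |G x - H x|) := by
    refine (av_abs_le _).trans (av_mono fun x => ?_)
    rw [abs_mul, abs_of_nonneg (hg0 j x)]
    exact mul_le_mul_of_nonneg_right (hg1 j x).2 (abs_nonneg _)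
  have d6 : av (fun x => ν j x * |G x - H x|) ^ 2 ≤
      av (ν j) * av (fun x => ν j x * (G x - H x) ^ 2) := by
    have := av_cs (ν j) (fun x => |G x - H x|) (hν0 j)
    simpa only [sq_abs] using this
  have d7 : av (ν j) ≤ 2 := by
    have := (abs_le.1 (LF_one hLF j)).2
    linarith
  -- the strong linear forms condition
  have bg : ∀ i x, |g i x| ≤ if true = true then ν i x else 1 := by
    intro i x
    rw [if_pos rfl, abs_of_nonneg (hg0 i x)]; exact (hg1 i x).2
  have bh : ∀ i x, |h i x| ≤ if false = true then ν i x else 1 := by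
    intro i x
    rw [if_neg Bool.false_ne_true, abs_of_nonneg (hh0 i x)]; exact (hh1 i x).2
  have e1 := slf_use hS hν j g g true true hg hg bg bg
  have e2 := slf_use hS hν j g h true false hg hh bg bh
  have e3 := slf_use hS hν j h h false false hh hh bh bh
  have d8 : av (fun x => ν j x * (G x - H x) ^ 2) ≤
      av (fun x => (G x - H x) ^ 2) + 4 * ε₂ := by
    have f1 : av (fun x => ν j x * (G x - H x) ^ 2) = av (fun x => (G x - H x) ^ 2) +
        (av (fun x => (ν j x - 1) * (G x * G x)) + (-2) * av (fun x => (ν j x - 1) * (G x * H x)) +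
          av (fun x => (ν j x - 1) * (H x * H x))) := by
      rw [← av_mul, ← av_add, ← av_add, ← av_add]
      congr 1
      funext x
      ring
    rw [f1]
    have g1 := (abs_le.1 e1).2
    have g2 := (abs_le.1 e2).1
    have g3 := (abs_le.1 e3).2
    linarith
  -- the dense part
  have d9 : |av (fun x => H x * (G x - H x))| ≤ ε₁ :=
    step_use j hP hη hν hg hh hLF hg1 hh1 hC hA H hHI (fun x => ⟨hH0 x, hH1 x⟩)
  have d10 : |av (fun x => min (G x) 1 * (G x - H x))| ≤ ε₁ := by
    refine step_use j hP hη hν hg hh hLF hg1 hh1 hC hA (fun x => min (G x) 1) ?_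
      (fun x => ⟨le_min (hG0 x) zero_le_one, min_le_right _ _⟩)
    intro x v
    show min (G _) 1 = min (G x) 1
    rw [hGI]
  have l1 := LF_pr hLF j
  have l2 := LF_pr2 hLF j
  have l3 : av (fun x => (N x - 1) ^ 2) ≤ τ ^ 2 := by
    have f1 : av (fun x => (N x - 1) ^ 2) = av (fun x => N x ^ 2) + (-2) * av N +
        av (fun _ : J → V => (1 : ℝ)) := by
      rw [← av_mul, ← av_add, ← av_add]
      congr 1
      funext x
      ring
    rw [f1, av_const]
    have g1 := (abs_le.1 l1).1
    have g2 := (abs_le.1 l2).2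
    linarith
  have l4 : av (fun x => |N x - 1|) ≤ τ := by
    have f1 := av_cs_one (fun x => |N x - 1|)
    simp only [sq_abs] at f1
    have f2 : av (fun x => |N x - 1|) ^ 2 ≤ τ ^ 2 := f1.trans l3
    exact (le_abs_self _).trans (abs_le_of_sq_le_sq f2 hτ)
  have d11 : |av (fun x => (G x - min (G x) 1) * (G x - H x))| ≤ τ ^ 2 + 2 * τ := by
    refine (av_abs_le _).trans ?_
    have f1 : av (fun x => |(G x - min (G x) 1) * (G x - H x)|) ≤
        av (fun x => (N x - 1) ^ 2 + 2 * |N x - 1|) := by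
      refine av_mono fun x => ?_
      rw [abs_mul]
      have f2 : |G x - min (G x) 1| ≤ |N x - 1| := by
        rcases le_total (G x) 1 with hle | hle
        · rw [min_eq_left hle, sub_self, abs_zero]; exact abs_nonneg _
        · rw [min_eq_right hle, abs_of_nonneg (by linarith), abs_of_nonneg (by linarith [hGN x])]
          linarith [hGN x]
      have f3 : |G x - H x| ≤ |N x - 1| + 2 := by
        rw [abs_le]
        have := hGN x
        have := hG0 x
        have := hH0 x
        have := hH1 x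
        have := le_abs_self (N x - 1)
        have := abs_nonneg (N x - 1)
        constructor <;> linarith
      calc |G x - min (G x) 1| * |G x - H x| ≤ |N x - 1| * (|N x - 1| + 2) :=
            mul_le_mul f2 f3 (abs_nonneg _) (abs_nonneg _)
        _ = (N x - 1) ^ 2 + 2 * |N x - 1| := by rw [← sq_abs (N x - 1)]; ring
    refine f1.trans ?_
    rw [av_add, av_mul]
    linarith
  have d12 : av (fun x => (G x - H x) ^ 2) ≤ 2 * ε₁ + τ ^ 2 + 2 * τ := by
    have f1 : av (fun x => (G x - H x) ^ 2) = av (fun x => min (G x) 1 * (G x - H x)) +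
        av (fun x => (G x - min (G x) 1) * (G x - H x)) - av (fun x => H x * (G x - H x)) := by
      rw [← av_add, ← av_sub]
      congr 1
      funext x
      ring
    rw [f1]
    have g1 := (abs_le.1 d10).2
    have g2 := (abs_le.1 d11).2
    have g3 := (abs_le.1 d9).1
    linarith
  refine ⟨av (fun x => ν j x * |G x - H x|), ?_, ?_⟩
  · refine d6.trans ?_
    have f1 : 0 ≤ av (fun x => ν j x * (G x - H x) ^ 2) :=
      av_nonneg fun x => mul_nonneg (hν0 j x) (sq_nonneg _)
    calc av (ν j) * av (fun x => ν j x * (G x - H x) ^ 2)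
        ≤ 2 * av (fun x => ν j x * (G x - H x) ^ 2) := mul_le_mul_of_nonneg_right d7 f1
      _ ≤ 2 * (2 * ε₁ + τ ^ 2 + 2 * τ + 4 * ε₂) := by linarith
  · rw [d3]
    refine (abs_add_le _ _).trans ?_
    linarith

theorem CN_succ (hSLF : S_SLF) (J : Type) [Fintype J] [DecidableEq J] (s : ℕ) (ih : CN J s) :
    CN J (s + 1) := by
  classical
  intro ε hε
  obtain ⟨η₁, hη₁, h1⟩ := ih (ε ^ 2 / 64) (by positivity)
  obtain ⟨η₂, hη₂, h2⟩ := hSLF J (ε ^ 2 / 128) (by positivity)
  set τ : ℝ := min 1 (ε ^ 2 / 64) with hτ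
  have hτ0 : 0 < τ := lt_min one_pos (by positivity)
  have hτ1 : τ ≤ 1 := min_le_left _ _
  have hτ2 : τ ≤ ε ^ 2 / 64 := min_le_right _ _
  obtain ⟨η₀, hη₀, h0⟩ := ih ε hε
  set η : ℝ := min (min (min η₁ η₂) (min (τ ^ 2 / 3) (ε / 2))) (min 1 η₀) with hη
  have hηpos : 0 < η := by
    rw [hη]
    refine lt_min (lt_min (lt_min hη₁ hη₂) (lt_min (by positivity) (by positivity)))
      (lt_min one_pos hη₀)
  have b1 : η ≤ η₁ := (min_le_left _ _).trans ((min_le_left _ _).trans (min_le_left _ _))
  have b2 : η ≤ η₂ := (min_le_left _ _).trans ((min_le_left _ _).trans (min_le_right _ _))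
  have b3 : η ≤ τ ^ 2 / 3 := (min_le_left _ _).trans ((min_le_right _ _).trans (min_le_left _ _))
  have b4 : η ≤ ε / 2 := (min_le_left _ _).trans ((min_le_right _ _).trans (min_le_right _ _))
  have b5 : η ≤ 1 := (min_le_right _ _).trans (min_le_left _ _)
  have b6 : η ≤ η₀ := (min_le_right _ _).trans (min_le_right _ _)
  refine ⟨η, hηpos, ?_⟩
  intro V _ _ ν g h hν hg hh hLF hg1 hh1 hC hs
  by_cases hs' : (univ.filter (fun j => ν j ≠ fun _ => 1)).card ≤ s
  · exact h0 V ν g h hν hg hh (LF_mono hLF b6) hg1 hh1 (fun j => Cut_mono (hC j) b6) hs'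
  · push Not at hs'
    obtain ⟨j, hj⟩ : (univ.filter (fun j => ν j ≠ fun _ => 1)).Nonempty := by
      rw [← Finset.card_pos]; omega
    have hcard : ((univ.filter (fun j => ν j ≠ fun _ => 1)).erase j).card ≤ s := by
      rw [Finset.card_erase_of_mem hj]; omega
    have hP : ∀ (ν g h : J → (J → V) → ℝ),
        (∀ j, Ind j (ν j)) → (∀ j, Ind j (g j)) → (∀ j, Ind j (h j)) → LF ν η →
        (∀ j x, 0 ≤ g j x ∧ g j x ≤ ν j x) → (∀ j x, 0 ≤ h j x ∧ h j x ≤ 1) →
        (∀ j, Cut j (fun x => g j x - h j x) η) →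
        (∃ A : Finset J, A.card ≤ s ∧ ∀ j, j ∉ A → ν j = fun _ => 1) →
        |av (fun x : J → V => ∏ j, g j x) - av (fun x : J → V => ∏ j, h j x)| ≤ ε ^ 2 / 64 := by
      intro ν g h a1 a2 a3 a4 a5 a6 a7 a8
      refine h1 V ν g h a1 a2 a3 (LF_mono a4 b1) a5 a6 (fun j => Cut_mono (a7 j) b1) ?_
      obtain ⟨A, hA1, hA2⟩ := a8
      refine le_trans (Finset.card_le_card ?_) hA1
      intro i hi
      by_contra hiA
      exact (mem_filter.1 hi).2 (hA2 i hiA)
    have hν0 : ∀ i x, 0 ≤ ν i x := fun i x => (hg1 i x).1.trans (hg1 i x).2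
    obtain ⟨r, hr1, hr2⟩ := main_ineq (s := s) (ε₁ := ε ^ 2 / 64) (ε₂ := ε ^ 2 / 128) (η := η)
      (τ := τ) j hP (h2 V ν hν0 hν (LF_mono hLF b2)) hηpos.le b5 hτ0.le (by linarith)
      hν hg hh hLF hg1 hh1 hC
      ⟨(univ.filter (fun j => ν j ≠ fun _ => 1)).erase j, hcard, fun i hi hij => by
        by_contra hne
        exact hi (mem_erase.2 ⟨hij, by simp [hne]⟩)⟩
    have hr3 : r ^ 2 ≤ (ε / 2) ^ 2 := by
      refine hr1.trans ?_
      nlinarith
    have hr4 : r ≤ ε / 2 := (le_abs_self _).trans (abs_le_of_sq_le_sq hr3 (by linarith))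
    linarith

/-- CNT -/
theorem cnt (hSLF : S_SLF) : S_CNT := by
  classical
  intro J _ _
  have h : ∀ s, CN J s := by
    intro s
    induction s with
    | zero => exact CN_zero J
    | succ s ih => exact CN_succ hSLF J s ih
  intro ε hε
  obtain ⟨η, hη, h1⟩ := h (Fintype.card J) ε hε
  refine ⟨η, hη, fun V _ _ ν g h a1 a2 a3 a4 a5 a6 a7 => ?_⟩
  exact h1 V ν g h a1 a2 a3 a4 a5 a6 a7 (Finset.card_le_univ _)

end Pool.Agent.Y814.PSP
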