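import Pool.Agent.Y727.PSP.Stm

/-!
Project PSP (job 699): averages over one coordinate.
-/

set_option autoImplicit false

namespace Pool.Agent.Y814.PSP

open Finset
open Pool.Agent.H602R3.DHJ (av av_const av_mono av_nonneg av_add av_sub av_mul av_sum av_equiv
  av_prod av_comm)
open Pool.Agent.Y727.PSP

section A

variable {X : Type} [Fintype X]

theorem av_abs_le (f : X → ℝ) : |av f| ≤ av (fun x => |f x|) := by
  unfold av
  rw [abs_div, Nat.abs_cast]
  exact div_le_div_of_nonneg_right (abs_sum_le_sum_abs _ _) (by positivity)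

theorem av_cs (ν k : X → ℝ) (hν : ∀ x, 0 ≤ ν x) :
    av (fun x => ν x * k x) ^ 2 ≤ av ν * av (fun x => ν x * k x ^ 2) := by
  unfold av
  rw [div_pow, div_mul_div_comm, ← sq]
  refine div_le_div_of_nonneg_right ?_ (by positivity)
  refine Finset.sum_sq_le_sum_mul_sum_of_sq_le_mul _ (fun x _ => hν x)
    (fun x _ => mul_nonneg (hν x) (sq_nonneg _)) (fun x _ => le_of_eq (by ring))

theorem av_cs_one [Nonempty X] (k : X → ℝ) : av k ^ 2 ≤ av (fun x => k x ^ 2) := by
  have h := av_cs (fun _ => (1 : ℝ)) k (fun _ => zero_le_one)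
  rw [av_const] at h
  simpa using h

end A

variable {J V : Type} [DecidableEq J]

/-- average over the coordinate `j` -/
noncomputable def E [Fintype V] (j : J) (a : (J → V) → ℝ) : (J → V) → ℝ :=
  fun x => av (fun v => a (Function.update x j v))

theorem Ind_E [Fintype V] (j : J) (a : (J → V) → ℝ) : Ind j (E j a) := by
  intro x v
  unfold E
  simp only [Function.update_idem]

theorem E_nonneg [Fintype V] (j : J) {a : (J → V) → ℝ} (h : ∀ x, 0 ≤ a x) (x : J → V) :
    0 ≤ E j a x := av_nonneg fun _ => h _

theorem E_mono [Fintype V] (j : J) {a b : (J → V) → ℝ} (h : ∀ x, a x ≤ b x) (x : J → V) :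
    E j a x ≤ E j b x := av_mono fun _ => h _

theorem E_le_one [Fintype V] [Nonempty V] (j : J) {a : (J → V) → ℝ} (h : ∀ x, a x ≤ 1)
    (x : J → V) : E j a x ≤ 1 := by
  have h1 : E j a x ≤ av (fun _ : V => (1 : ℝ)) := av_mono fun _ => h _
  rwa [av_const] at h1

/-- exchange of the coordinate `j` with an extra variable -/
def exch (j : J) : (J → V) × V ≃ (J → V) × V where
  toFun p := (Function.update p.1 j p.2, p.1 j)
  invFun p := (Function.update p.1 j p.2, p.1 j)
  left_inv p := by simp
  right_inv p := by simp

theorem sl_empty (y : J → V × V) : sl ∅ y = fun i => (y i).1 := by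
  funext i
  simp [sl]

theorem sl_single (j : J) (y : J → V × V) :
    sl {j} y = Function.update (fun i => (y i).1) j (y j).2 := by
  funext i
  unfold sl
  by_cases h : i = j
  · subst h; simp
  · simp [h]

variable [Fintype J] [Fintype V] [Nonempty V]

theorem av_update (j : J) (F : (J → V) → ℝ) :
    av F = av (fun x : J → V => av (fun v : V => F (Function.update x j v))) := by
  have h1 := av_equiv (exch (V := V) j) (fun q => F q.1)
  have h2 := av_prod (fun p : (J → V) × V => F (exch j p).1)
  have h3 := av_prod (fun q : (J → V) × V => F q.1)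
  simp only [av_const] at h3
  rw [h1, h3] at h2
  exact h2

theorem av_mul_E (j : J) {k : (J → V) → ℝ} (a : (J → V) → ℝ) (hk : Ind j k) :
    av (fun x => k x * a x) = av (fun x => k x * E j a x) := by
  rw [av_update j]
  congr 1
  funext x
  unfold E
  rw [← av_mul]
  congr 1
  funext v
  rw [hk]

theorem av_apply (j : J) (φ : V → ℝ) : av (fun z : J → V => φ (z j)) = av φ := by
  rw [av_update j]
  simp only [Function.update_self]
  exact av_const _

theorem av_pair (j : J) (H : (J → V) → (J → V) → ℝ) :
    av (fun y : J → V × V => H (sl ∅ y) (sl {j} y)) =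
      av (fun x : J → V => av (fun v : V => H x (Function.update x j v))) := by
  have h1 := av_equiv (Equiv.arrowProdEquivProdArrow J (fun _ => V) (fun _ => V)).symm
    (fun y : J → V × V => H (sl ∅ y) (sl {j} y))
  rw [← h1, av_prod]
  congr 1
  funext x
  have h2 := av_apply (J := J) j (fun v : V => H x (Function.update x j v))
  rw [← h2]
  congr 1
  funext z
  rw [sl_empty, sl_single]
  rfl

theorem av_double (j : J) {k : (J → V) → ℝ} (a b : (J → V) → ℝ) (hk : Ind j k) :
    av (fun y : J → V × V => k (sl ∅ y) * (a (sl ∅ y) * b (sl {j} y))) =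
      av (fun x => k x * (E j a x * E j b x)) := by
  rw [av_pair j (fun x z => k x * (a x * b z))]
  have h1 : ∀ x : J → V, av (fun v : V => k x * (a x * b (Function.update x j v))) =
      (k x * E j b x) * a x := by
    intro x
    rw [av_mul, av_mul]
    unfold E
    ring
  simp only [h1]
  have h2 : Ind j (fun x => k x * E j b x) := by
    intro x v
    show k _ * E j b _ = k x * E j b x
    rw [hk, Ind_E j b]
  rw [av_mul_E j a h2]
  congr 1
  funext x
  ring

theorem av_single_E (j : J) (a : (J → V) → ℝ) : av (E j a) = av a := by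
  rw [av_update j a]
  rfl

theorem av_sl_empty (a : (J → V) → ℝ) : av (fun y : J → V × V => a (sl ∅ y)) = av a := by
  have h1 := av_equiv (Equiv.arrowProdEquivProdArrow J (fun _ => V) (fun _ => V)).symm
    (fun y : J → V × V => a (sl ∅ y))
  rw [← h1, av_prod]
  congr 1
  funext x
  have : ∀ z : J → V, a (sl ∅ ((Equiv.arrowProdEquivProdArrow J (fun _ => V) (fun _ => V)).symm
      (x, z))) = a x := by
    intro z
    rw [sl_empty]
    rfl
  simp only [this]
  exact av_const _

end Pool.Agent.Y814.PSP
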